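import Pool.Agent.W78.GR.Basic
import Pool.Agent.W327.GA.LS

/-! Task GR-4: the large sieve for the (hyperbolic) angles of primitive elements of a real
quadratic order (port of `W327/GA/LS`). -/

set_option autoImplicit false

namespace Pool.Agent.W586.GR

open Finset
open Pool.Agent.H376R2.MR Pool.Agent.W78.GR

variable {t c : ℤ} {η : (Qd t c)ˣ}

lemma sinh_le {x a : ℝ} (hx : 0 ≤ x) (hxa : x ≤ a) : Real.sinh x ≤ x * Real.exp a := by
  have h1 := Real.add_one_le_exp (-x)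
  have h2 : Real.exp x - 1 ≤ x * Real.exp x := by
    have h3 : (1 - x) * Real.exp x ≤ 1 := by
      calc (1 - x) * Real.exp x ≤ Real.exp (-x) * Real.exp x :=
            mul_le_mul_of_nonneg_right (by linarith) (Real.exp_pos _).le
        _ = 1 := by rw [← Real.exp_add, neg_add_cancel, Real.exp_zero]
    linarith
  have h4 : 1 ≤ Real.exp x := Real.one_le_exp hx
  have h5 : x ≤ x * Real.exp x := by nlinarith
  have h6 : x * Real.exp x ≤ x * Real.exp a :=
    mul_le_mul_of_nonneg_left (Real.exp_le_exp.2 hxa) hx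
  rw [Real.sinh_eq]
  linarith

lemma sinh_abs (x : ℝ) : |Real.sinh x| = Real.sinh |x| := by
  rcases le_or_gt 0 x with h | h
  · rw [abs_of_nonneg h, abs_of_nonneg (Real.sinh_nonneg_iff.2 h)]
  · rw [abs_of_neg h, abs_of_neg (Real.sinh_neg_iff.2 h), Real.sinh_neg]

/-- the constant of the separation of the angles -/
noncomputable def C0 (η : (Qd t c)ˣ) : ℝ := 1 + rg η * Real.exp (rg η) / Real.pi

theorem sep (U : Un t c η) {X : ℝ} (hX : 1 ≤ X) {z z' : Qd t c} (hf : fd η z) (hf' : fd η z')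
    (hz : prim z) (hz' : prim z') (hzX : (nm z : ℝ) ≤ X) (hzX' : (nm z' : ℝ) ≤ X) (hne : z ≠ z') :
    1 ≤ (C0 η * X) * |ang η z - ang η z'| := by
  have hR := U.rg_pos
  have hpi := Real.pi_pos
  have hq : 1 ≤ Real.sqrt ((t : ℝ) ^ 2 - 4 * c) := by
    rw [Real.one_le_sqrt]
    have := U.five_le
    linarith
  have hd : dt z z' ≠ 0 := by
    intro hd
    have h2 : z.re * z'.im = z.im * z'.re := by
      unfold dt at hd; omega
    rcases Pool.Agent.W327.GA.coprime_parallel hz hz' h2 with h3 | h3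
    · exact hne (QuadraticAlgebra.ext h3.1.symm h3.2.symm)
    · have h4 : z' = -z := QuadraticAlgebra.ext (by simpa using h3.1) (by simpa using h3.2)
      have h5 := hf'.1.1
      rw [h4, s1_neg] at h5
      have := hf.1.1
      linarith
  have h1 : (1 : ℝ) ≤ |(dt z z' : ℝ)| := by
    have : 1 ≤ |dt z z'| := Int.one_le_abs hd
    exact_mod_cast this
  have h2 := U.dt_sinh hf.1 hf'.1
  have h3 : Real.sqrt ((nm z : ℝ) * nm z') ≤ X := by
    rw [Real.sqrt_le_left (by linarith)]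
    have h4 : (0 : ℝ) ≤ nm z := Nat.cast_nonneg _
    have h5 : (0 : ℝ) ≤ nm z' := Nat.cast_nonneg _
    nlinarith
  set Δ : ℝ := ang η z' - ang η z with hΔ
  have hΔ2 : |Δ| ≤ 2 * Real.pi := by
    rw [abs_le]
    constructor <;> linarith [hf.2.1, hf.2.2, hf'.2.1, hf'.2.2]
  have h4 : |Real.sqrt ((t : ℝ) ^ 2 - 4 * c) * (dt z z' : ℝ)| =
      2 * Real.sqrt ((nm z : ℝ) * nm z') * Real.sinh (rg η / (2 * Real.pi) * |Δ|) := by
    rw [h2, abs_mul, sinh_abs, abs_mul (rg η / (2 * Real.pi)),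
      abs_of_pos (show 0 < rg η / (2 * Real.pi) by positivity),
      abs_of_nonneg (show 0 ≤ 2 * Real.sqrt ((nm z : ℝ) * nm z') by positivity)]
  rw [abs_mul, abs_of_nonneg (by linarith : 0 ≤ Real.sqrt ((t : ℝ) ^ 2 - 4 * c))] at h4
  have h5 : 0 ≤ rg η / (2 * Real.pi) * |Δ| := by positivity
  have h6 : rg η / (2 * Real.pi) * |Δ| ≤ rg η := by
    have : rg η / (2 * Real.pi) * |Δ| ≤ rg η / (2 * Real.pi) * (2 * Real.pi) :=
      mul_le_mul_of_nonneg_left hΔ2 (by positivity)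
    have h7 : rg η / (2 * Real.pi) * (2 * Real.pi) = rg η := by field_simp
    linarith
  have h7 := sinh_le h5 h6
  have h8 : 2 * Real.sqrt ((nm z : ℝ) * nm z') * Real.sinh (rg η / (2 * Real.pi) * |Δ|) ≤
      2 * X * (rg η / (2 * Real.pi) * |Δ| * Real.exp (rg η)) :=
    mul_le_mul (by linarith) h7 (Real.sinh_nonneg_iff.2 h5) (by linarith)
  have h9 : (1 : ℝ) ≤ Real.sqrt ((t : ℝ) ^ 2 - 4 * c) * |(dt z z' : ℝ)| := by
    calc (1 : ℝ) = 1 * 1 := (one_mul 1).symm
      _ ≤ _ := mul_le_mul hq h1 zero_le_one (by linarith)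
  have h10 : 2 * X * (rg η / (2 * Real.pi) * |Δ| * Real.exp (rg η)) =
      rg η * Real.exp (rg η) / Real.pi * X * |Δ| := by
    field_simp
  rw [abs_sub_comm (ang η z), ← hΔ]
  have h11 : 0 ≤ X * |Δ| := by positivity
  have h12 : C0 η * X * |Δ| = X * |Δ| + rg η * Real.exp (rg η) / Real.pi * X * |Δ| := by
    unfold C0; ring
  rw [h12]
  linarith

/-- the shifted angle -/
noncomputable def sa (η : (Qd t c)ˣ) (z : Qd t c) : ℝ :=
  open scoped Classical in if fd η z then Real.pi - ang η z else 0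

lemma sa_range (z : Qd t c) : -Real.pi < sa η z ∧ sa η z ≤ Real.pi := by
  unfold sa
  have hpi := Real.pi_pos
  split_ifs with h
  · exact ⟨by linarith [h.2.2], by linarith [h.2.1]⟩
  · exact ⟨by linarith, by linarith⟩

lemma sa_sub {z z' : Qd t c} (hf : fd η z) (hf' : fd η z') :
    sa η z - sa η z' = ang η z' - ang η z := by
  unfold sa
  rw [if_pos hf, if_pos hf']
  ring

theorem expand (N : ℕ) (s : Finset (Qd t c)) (a : Qd t c → ℂ) :
    ((∑ k ∈ FK N, (1 - |(k : ℝ)| / N) * ‖DPG η s a k‖ ^ 2 : ℝ) : ℂ) =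
      ∑ z ∈ s, ∑ z' ∈ s, a z * (starRingEnd ℂ) (a z') * (Fj N (ang η z' - ang η z) : ℂ) := by
  rw [Complex.ofReal_sum]
  have h1 : ∀ k ∈ FK N, (((1 - |(k : ℝ)| / N) * ‖DPG η s a k‖ ^ 2 : ℝ) : ℂ) =
      ∑ z ∈ s, ∑ z' ∈ s, a z * (starRingEnd ℂ) (a z') * (((1 - |(k : ℝ)| / N : ℝ) : ℂ) *
        Complex.exp (-((k * (ang η z' - ang η z) : ℝ) : ℂ) * Complex.I)) := by
    intro k _
    have h2 : (((‖DPG η s a k‖ ^ 2 : ℝ)) : ℂ) = DPG η s a k * (starRingEnd ℂ) (DPG η s a k) := by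
      rw [Complex.mul_conj, Complex.normSq_eq_norm_sq]
    rw [Complex.ofReal_mul, h2]
    unfold DPG
    rw [map_sum, Finset.sum_mul_sum, Finset.mul_sum]
    refine Finset.sum_congr rfl fun z hz => ?_
    rw [Finset.mul_sum]
    refine Finset.sum_congr rfl fun z' hz' => ?_
    rw [map_mul]
    unfold ps
    rw [← Complex.exp_conj]
    have h3 : Complex.exp (-((k * (ang η z' - ang η z) : ℝ) : ℂ) * Complex.I) =
        Complex.exp (((k * ang η z : ℝ) : ℂ) * Complex.I) *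
        Complex.exp ((starRingEnd ℂ) (((k * ang η z' : ℝ) : ℂ) * Complex.I)) := by
      rw [← Complex.exp_add]
      congr 1
      rw [map_mul, Complex.conj_I, Complex.conj_ofReal]
      push_cast
      ring
    rw [h3]
    ring
  rw [Finset.sum_congr rfl h1, Finset.sum_comm]
  refine Finset.sum_congr rfl fun z _ => ?_
  rw [Finset.sum_comm]
  refine Finset.sum_congr rfl fun z' _ => ?_
  rw [← Finset.mul_sum, fej_exp]

theorem ls (U : Un t c η) : S_LS t c η := by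
  have hC1 : 1 ≤ C0 η := by
    unfold C0
    have := U.rg_pos
    have : 0 ≤ rg η * Real.exp (rg η) / Real.pi := by positivity
    linarith
  refine ⟨12 * (6 + Real.pi ^ 2 * Real.exp 1 ^ 2) * C0 η, by positivity, ?_⟩
  intro X K s a hX hK hs'
  have hs : ∀ z ∈ s, fd η z ∧ prim z ∧ (nm z : ℝ) ≤ X := fun z hz => U.mem_pball.1 (hs' hz)
  have hsep : ∀ z ∈ s, ∀ z' ∈ s, z ≠ z' → 1 ≤ (C0 η * X) * |sa η z - sa η z'| :=
    fun z hz z' hz' hne => by
      rw [sa_sub (hs z hz).1 (hs z' hz').1, abs_sub_comm]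
      exact sep U hX (hs z hz).1 (hs z' hz').1 (hs z hz).2.1 (hs z' hz').2.1 (hs z hz).2.2
        (hs z' hz').2.2 hne
  have hang : ∀ z : Qd t c, -Real.pi < sa η z ∧ sa η z ≤ Real.pi := sa_range
  have hX2 : 1 ≤ C0 η * X := by nlinarith
  have hK0 : (0 : ℝ) < K := by exact_mod_cast hK
  set B : ℝ := 6 * (6 + Real.pi ^ 2 * Real.exp 1 ^ 2) * (C0 η * X + K) with hB
  have hB0 : 0 ≤ B := by positivity
  set E : ℝ := ∑ k ∈ FK (2 * K), (1 - |(k : ℝ)| / ((2 * K : ℕ) : ℝ)) * ‖DPG η s a k‖ ^ 2 with hE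
  have h1 : ∑ k ∈ FK K, ‖DPG η s a k‖ ^ 2 ≤ 2 * E := by
    rw [hE, Finset.mul_sum]
    calc ∑ k ∈ FK K, ‖DPG η s a k‖ ^ 2
        ≤ ∑ k ∈ FK K, 2 * ((1 - |(k : ℝ)| / ((2 * K : ℕ) : ℝ)) * ‖DPG η s a k‖ ^ 2) := by
          refine Finset.sum_le_sum fun k hk => ?_
          unfold FK at hk
          rw [Finset.mem_Ioo] at hk
          have habs : |(k : ℝ)| ≤ K := by
            have : |k| ≤ (K : ℤ) := by
              rw [abs_le]
              constructor <;> omega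
            exact_mod_cast this
          have h2 : |(k : ℝ)| / ((2 * K : ℕ) : ℝ) ≤ 1 / 2 := by
            push_cast
            rw [div_le_div_iff₀ (by positivity) (by norm_num)]
            linarith
          have h3 : 0 ≤ ‖DPG η s a k‖ ^ 2 := by positivity
          nlinarith
      _ ≤ ∑ k ∈ FK (2 * K), 2 * ((1 - |(k : ℝ)| / ((2 * K : ℕ) : ℝ)) * ‖DPG η s a k‖ ^ 2) := by
          refine Finset.sum_le_sum_of_subset_of_nonneg ?_ ?_
          · intro k hk
            unfold FK at hk ⊢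
            rw [Finset.mem_Ioo] at hk ⊢
            push_cast
            constructor <;> omega
          · intro k hk _
            unfold FK at hk
            rw [Finset.mem_Ioo] at hk
            have habs : |(k : ℝ)| ≤ ((2 * K : ℕ) : ℝ) := by
              have : |k| ≤ ((2 * K : ℕ) : ℤ) := by
                rw [abs_le]
                constructor <;> omega
              exact_mod_cast this
            have h2 : |(k : ℝ)| / ((2 * K : ℕ) : ℝ) ≤ 1 := by
              apply div_le_one_of_le₀ habs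
              positivity
            have h3 : 0 ≤ ‖DPG η s a k‖ ^ 2 := by positivity
            have h4 : 0 ≤ 1 - |(k : ℝ)| / ((2 * K : ℕ) : ℝ) := by linarith
            positivity
  have h2 : E ≤ ∑ z ∈ s, ∑ z' ∈ s, ‖a z‖ * ‖a z'‖ * Fj (2 * K) (ang η z' - ang η z) := by
    have hE' := expand (η := η) (2 * K) s a
    rw [← hE] at hE'
    have h3 : E ≤ ‖(E : ℂ)‖ := by
      rw [Complex.norm_real, Real.norm_eq_abs]
      exact le_abs_self _
    refine h3.trans ?_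
    rw [hE']
    refine (norm_sum_le _ _).trans (Finset.sum_le_sum fun m _ => ?_)
    refine (norm_sum_le _ _).trans (Finset.sum_le_sum fun n _ => ?_)
    rw [norm_mul, norm_mul, RCLike.norm_conj, Complex.norm_real, Real.norm_eq_abs,
      abs_of_nonneg (Fj_nonneg _ _)]
  have h3 : ∑ z ∈ s, ∑ z' ∈ s, ‖a z‖ * ‖a z'‖ * Fj (2 * K) (ang η z' - ang η z) ≤
      ∑ z ∈ s, ‖a z‖ ^ 2 * B := by
    have hpt : ∀ m ∈ s, ∀ n ∈ s, ‖a m‖ * ‖a n‖ * Fj (2 * K) (ang η n - ang η m) ≤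
        ‖a m‖ ^ 2 / 2 * Fj (2 * K) (ang η n - ang η m) +
        ‖a n‖ ^ 2 / 2 * Fj (2 * K) (ang η n - ang η m) := by
      intro m _ n _
      have h4 := Fj_nonneg (2 * K) (ang η n - ang η m)
      have h5 : ‖a m‖ * ‖a n‖ ≤ ‖a m‖ ^ 2 / 2 + ‖a n‖ ^ 2 / 2 := by
        nlinarith [sq_nonneg (‖a m‖ - ‖a n‖)]
      calc ‖a m‖ * ‖a n‖ * Fj (2 * K) (ang η n - ang η m)
          ≤ (‖a m‖ ^ 2 / 2 + ‖a n‖ ^ 2 / 2) * Fj (2 * K) (ang η n - ang η m) :=
            mul_le_mul_of_nonneg_right h5 h4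
        _ = _ := by ring
    have hrow : ∀ m ∈ s, ∑ n ∈ s, Fj (2 * K) (ang η n - ang η m) ≤ B := by
      intro m hm
      have := Pool.Agent.W327.GA.row (sa η) hang hX2 hK s hsep m
      have e : ∑ z ∈ s, Fj (2 * K) (sa η m - sa η z) = ∑ n ∈ s, Fj (2 * K) (ang η n - ang η m) := by
        refine Finset.sum_congr rfl fun z hz => ?_
        rw [sa_sub (hs m hm).1 (hs z hz).1]
      rw [← e]
      exact this
    have hcol : ∀ n ∈ s, ∑ m ∈ s, Fj (2 * K) (ang η n - ang η m) ≤ B := by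
      intro n hn
      have := Pool.Agent.W327.GA.row (sa η) hang hX2 hK s hsep n
      have e : ∑ z ∈ s, Fj (2 * K) (sa η n - sa η z) = ∑ m ∈ s, Fj (2 * K) (ang η n - ang η m) := by
        refine Finset.sum_congr rfl fun z hz => ?_
        rw [sa_sub (hs n hn).1 (hs z hz).1, ← Pool.Agent.W327.GA.Fj_neg, neg_sub]
      rw [← e]
      exact this
    calc ∑ m ∈ s, ∑ n ∈ s, ‖a m‖ * ‖a n‖ * Fj (2 * K) (ang η n - ang η m)
        ≤ ∑ m ∈ s, ∑ n ∈ s, (‖a m‖ ^ 2 / 2 * Fj (2 * K) (ang η n - ang η m) +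
          ‖a n‖ ^ 2 / 2 * Fj (2 * K) (ang η n - ang η m)) :=
          Finset.sum_le_sum fun m hm => Finset.sum_le_sum fun n hn => hpt m hm n hn
      _ = ∑ m ∈ s, ‖a m‖ ^ 2 / 2 * ∑ n ∈ s, Fj (2 * K) (ang η n - ang η m) +
          ∑ n ∈ s, ‖a n‖ ^ 2 / 2 * ∑ m ∈ s, Fj (2 * K) (ang η n - ang η m) := by
          simp only [Finset.sum_add_distrib, Finset.mul_sum]
          congr 1
          rw [Finset.sum_comm]
      _ ≤ ∑ m ∈ s, ‖a m‖ ^ 2 / 2 * B + ∑ n ∈ s, ‖a n‖ ^ 2 / 2 * B := by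
          refine add_le_add ?_ ?_
          · exact Finset.sum_le_sum fun m hm =>
              mul_le_mul_of_nonneg_left (hrow m hm) (by positivity)
          · exact Finset.sum_le_sum fun n hn =>
              mul_le_mul_of_nonneg_left (hcol n hn) (by positivity)
      _ = ∑ m ∈ s, ‖a m‖ ^ 2 * B := by
          rw [← Finset.sum_add_distrib]
          exact Finset.sum_congr rfl fun m _ => by ring
  calc ∑ k ∈ FK K, ‖DPG η s a k‖ ^ 2 ≤ 2 * E := h1
    _ ≤ 2 * ∑ m ∈ s, ‖a m‖ ^ 2 * B := mul_le_mul_of_nonneg_left (h2.trans h3) (by norm_num)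
    _ = 12 * (6 + Real.pi ^ 2 * Real.exp 1 ^ 2) * (K + C0 η * X) * ∑ z ∈ s, ‖a z‖ ^ 2 := by
        rw [← Finset.sum_mul, hB]; ring
    _ ≤ 12 * (6 + Real.pi ^ 2 * Real.exp 1 ^ 2) * C0 η * (K + X) * ∑ z ∈ s, ‖a z‖ ^ 2 := by
        apply mul_le_mul_of_nonneg_right _ (Finset.sum_nonneg fun _ _ => by positivity)
        have hP : 0 ≤ 6 + Real.pi ^ 2 * Real.exp 1 ^ 2 := by positivity
        have h20 : (K : ℝ) + C0 η * X ≤ C0 η * (K + X) := by nlinarith
        have h21 := mul_le_mul_of_nonneg_left h20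
          (show 0 ≤ 12 * (6 + Real.pi ^ 2 * Real.exp 1 ^ 2) by positivity)
        linarith

end Pool.Agent.W586.GR
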