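import Pool.Agent.W78.GR.Basic
import Pool.Agent.W109.GA.Fin
import Pool.Agent.W327.GA.LS

/-!
Project GR (helper78), task GR-13: Selberg weights for positive discriminant (port of `W109/GA`).
After a shift of the generator the elements `x + Q y ω`, `1 ≤ y ≤ x`, are in the cone
`s2 z ≤ s1 z ≤ 3 s2 z`; in this cone an element is determined by its norm and its ideal.
-/

set_option autoImplicit false

namespace Pool.Agent.W586.GR

open Finset
open Pool.Agent.H376R2.MR Pool.Agent.W78.GR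
open Pool.Agent.W109.GA (QP ZX AX mem_ZX mem_AX sum_AX_le sum_AX_ge elt elt_inj elt_prim QQ CC tG
  hG tG_le one_le_hG hl hl_one hl_le hl_supp h_form)

variable {t c : ℤ}

lemma five_le' (hd : 4 * c < t ^ 2) (hns : ¬ IsSquare (t ^ 2 - 4 * c)) :
    (5 : ℝ) ≤ (t : ℝ) ^ 2 - 4 * c := by
  have h : 5 ≤ t ^ 2 - 4 * c := by
    by_contra h0
    push Not at h0
    rcases Int.even_or_odd t with ⟨s, hs⟩ | ⟨s, hs⟩
    · have h1 : t ^ 2 = 4 * s ^ 2 := by rw [hs]; ring
      have h2 : t ^ 2 - 4 * c = 4 := by omega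
      exact hns ⟨2, by rw [h2]; norm_num⟩
    · have h1 : t ^ 2 = 4 * (s ^ 2 + s) + 1 := by rw [hs]; ring
      have h2 : t ^ 2 - 4 * c = 1 := by omega
      exact hns ⟨1, by rw [h2]; norm_num⟩
  exact_mod_cast h

/-- the cone -/
def cn (z : Qd t c) : Prop := 0 < s2 z ∧ s2 z ≤ s1 z ∧ s1 z ≤ 3 * s2 z

lemma cn_tp {z : Qd t c} (hz : cn z) : tp z := ⟨lt_of_lt_of_le hz.1 hz.2.1, hz.1⟩

/-- in the cone: an element is determined by its norm and its ideal -/
lemma cn_unique (hd : 4 * c < t ^ 2) (hns : ¬ IsSquare (t ^ 2 - 4 * c)) {N : ℕ} (hN : 0 < N)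
    {z z' : Qd t c} (hz : cn z) (hz' : cn z') (hp : prim z) (hp' : prim z') (h1 : nm z = N)
    (h1' : nm z' = N) (hdt : (N : ℤ) ∣ dt z z') : z = z' := by
  have hNR : (0 : ℝ) < N := by exact_mod_cast hN
  have e1 := nm_tp hd (cn_tp hz)
  have e2 := nm_tp hd (cn_tp hz')
  rw [h1] at e1
  rw [h1'] at e2
  have hdisc := five_le' hd hns
  have hsd : 2 < Real.sqrt ((t : ℝ) ^ 2 - 4 * c) := by
    apply Real.lt_sqrt_of_sq_lt
    linarith
  have hdt0 : dt z z' = 0 := by
    by_contra hne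
    have h2 : (N : ℝ) ≤ |(dt z z' : ℝ)| := by
      have h3 : (N : ℤ) ≤ |dt z z'| := by
        have := Int.le_of_dvd (abs_pos.2 hne) ((dvd_abs _ _).2 hdt)
        exact this
      exact_mod_cast h3
    have h4 := dt_eq z z'
    have h5 : |s2 z * s1 z' - s1 z * s2 z'| ≤ 2 * N := by
      obtain ⟨a1, a2, a3⟩ := hz
      obtain ⟨b1, b2, b3⟩ := hz'
      set x := s1 z
      set y := s2 z
      set x' := s1 z'
      set y' := s2 z'
      have hx : 0 < x := lt_of_lt_of_le a1 a2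
      have hx' : 0 < x' := lt_of_lt_of_le b1 b2
      have p1 : 0 < y * x' := mul_pos a1 hx'
      have p2 : 0 < x * y' := mul_pos hx b1
      -- the product of the two terms is N^2, each is at most 3 N
      have q1 : (y * x') * (x * y') = (N : ℝ) ^ 2 := by
        calc (y * x') * (x * y') = (x * y) * (x' * y') := by ring
          _ = (N : ℝ) ^ 2 := by rw [← e1, ← e2]; ring
      have r1 : y * x' ≤ 3 * (x * y') := by
        calc y * x' ≤ x * (3 * y') := mul_le_mul a2 b3 hx'.le hx.le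
          _ = _ := by ring
      have r2 : x * y' ≤ 3 * (y * x') := by
        calc x * y' ≤ (3 * y) * x' := mul_le_mul a3 b2 b1.le (by linarith)
          _ = _ := by ring
      have s3 : (y * x') ^ 2 ≤ 3 * (N : ℝ) ^ 2 := by nlinarith
      have s4 : (x * y') ^ 2 ≤ 3 * (N : ℝ) ^ 2 := by nlinarith
      have s5 : y * x' ≤ 2 * N := by
        by_contra hc
        push Not at hc
        nlinarith
      have s6 : x * y' ≤ 2 * N := by
        by_contra hc
        push Not at hc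
        nlinarith
      rw [abs_le]
      constructor <;> linarith
    have h6 : Real.sqrt ((t : ℝ) ^ 2 - 4 * c) * |(dt z z' : ℝ)| ≤ 2 * N := by
      rw [← abs_of_pos (show 0 < Real.sqrt ((t : ℝ) ^ 2 - 4 * c) by linarith), ← abs_mul, h4]
      exact h5
    nlinarith
  have h2 : z.re * z'.im = z.im * z'.re := by
    unfold dt at hdt0; omega
  rcases Pool.Agent.W327.GA.coprime_parallel hp hp' h2 with h3 | h3
  · exact (QuadraticAlgebra.ext h3.1.symm h3.2.symm)
  · exfalso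
    have h4 : z' = -z := QuadraticAlgebra.ext (by simpa using h3.1) (by simpa using h3.2)
    have h5 := hz'.1
    rw [h4, s2_neg] at h5
    have := hz.1
    linarith

/-- a prime divisor of the norm of a primitive element does not divide the second coordinate -/
lemma not_dvd_im (hd : 4 * c < t ^ 2) {z : Qd t c} (htp : tp z) (hz : prim z) {p : ℕ} (hp : p.Prime)
    (hpz : p ∣ nm z) : ¬ (p : ℤ) ∣ z.im := by
  intro him
  have h1 : (p : ℤ) ∣ (nm z : ℤ) := by exact_mod_cast hpz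
  rw [nm_tp_int hd htp] at h1
  have h2 : (p : ℤ) ∣ z.re ^ 2 := by
    have e : z.re ^ 2 = (z.re ^ 2 + t * z.re * z.im + c * z.im ^ 2) -
        z.im * (t * z.re + c * z.im) := by ring
    rw [e]
    exact dvd_sub h1 (him.mul_right _)
  have h3 : (p : ℤ) ∣ z.re := (Nat.prime_iff_prime_int.1 hp).dvd_of_dvd_pow h2
  exact prim_iff.1 hz p hp (natCast_dvd.2 ⟨h3, him⟩)

/-- prime divisors of norms of primitive elements -/
lemma Sp_of (hd' : 4 * c < t ^ 2) {z : Qd t c} (htp : tp z) (hz : prim z) {p : ℕ} (hp : p.Prime)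
    (hpz : p ∣ nm z) (h5 : 5 ≤ p) (hd : ¬ (p : ℤ) ∣ t ^ 2 - 4 * c) : Sp t c p := by
  refine ⟨hp, h5, hd, ?_⟩
  have him := not_dvd_im hd' htp hz hp hpz
  have hpi := Nat.prime_iff_prime_int.1 hp
  have hcop : IsCoprime (p : ℤ) z.im := by
    rw [Int.isCoprime_iff_gcd_eq_one]
    rcases Nat.Prime.eq_one_or_self_of_dvd hp (Int.gcd (p : ℤ) z.im) (by
      have := Int.gcd_dvd_left (p : ℤ) z.im
      exact_mod_cast this) with h | h
    · exact h
    · exfalso
      apply him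
      have := Int.gcd_dvd_right (p : ℤ) z.im
      rwa [h] at this
  obtain ⟨a, b, hab⟩ := hcop
  refine ⟨-z.re * b, ?_⟩
  have h1 : (p : ℤ) ∣ (nm z : ℤ) := by exact_mod_cast hpz
  rw [nm_tp_int hd' htp] at h1
  have h2 : (p : ℤ) ∣ z.im ^ 2 * ((-z.re * b) ^ 2 - t * (-z.re * b) + c) := by
    have hb : b * z.im = 1 - a * p := by linarith
    have e : z.im ^ 2 * ((-z.re * b) ^ 2 - t * (-z.re * b) + c) =
        (z.re ^ 2 + t * z.re * z.im + c * z.im ^ 2) +
        p * (z.re ^ 2 * (-2 * a + a ^ 2 * p) - t * z.re * z.im * a) := by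
      have e1 : z.im ^ 2 * ((-z.re * b) ^ 2 - t * (-z.re * b) + c) =
        z.re ^ 2 * (b * z.im) ^ 2 + t * z.re * z.im * (b * z.im) + c * z.im ^ 2 := by ring
      rw [e1, hb]
      ring
    rw [e]
    exact dvd_add h1 (Dvd.intro _ rfl)
  rcases hpi.dvd_or_dvd h2 with h | h
  · exact absurd (hpi.dvd_of_dvd_pow h) him
  · exact h

/-- two primitive elements of the same norm with the same roots have determinant divisible by the
norm -/
lemma dvd_dt (hd : 4 * c < t ^ 2) {N : ℕ} (hN : 0 < N) (hQ : QP (Sp t c) N) (ρ : ℕ → ℤ)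
    (hρ : ∀ p : ℕ, p.Prime → p ∣ N → (p : ℤ) ∣ ρ p ^ 2 - t * ρ p + c)
    {z z' : Qd t c} (htp : tp z) (htp' : tp z') (hz : prim z) (hz' : prim z') (h1 : nm z = N) (h1' : nm z' = N)
    (hT : ∀ p : ℕ, p.Prime → p ∣ N → (lat p (ρ p) z ↔ lat p (ρ p) z')) :
    (N : ℤ) ∣ dt z z' := by
  have n1 := nm_tp_int hd htp
  have n2 := nm_tp_int hd htp'
  rw [h1] at n1
  rw [h1'] at n2
  set S : ℤ := z.re * z'.im + z'.re * z.im + t * z.im * z'.im with hS
  have hmul : (N : ℤ) ∣ dt z z' * S := by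
    have e : dt z z' * S = z'.im ^ 2 * (z.re ^ 2 + t * z.re * z.im + c * z.im ^ 2) -
        z.im ^ 2 * (z'.re ^ 2 + t * z'.re * z'.im + c * z'.im ^ 2) := by
      rw [hS]; unfold dt; ring
    rw [e, ← n1, ← n2]
    exact dvd_sub (Dvd.intro_left _ rfl) (Dvd.intro_left _ rfl)
  have hcop : IsCoprime (N : ℤ) S := by
    rw [Int.isCoprime_iff_gcd_eq_one]
    by_contra hne
    obtain ⟨p, hp, hpd⟩ := Nat.exists_prime_and_dvd hne
    have hpN' : (p : ℤ) ∣ (N : ℤ) :=
      (Int.natCast_dvd_natCast.2 hpd).trans (Int.gcd_dvd_left _ _)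
    have hpS : (p : ℤ) ∣ S := (Int.natCast_dvd_natCast.2 hpd).trans (Int.gcd_dvd_right _ _)
    have hpN : p ∣ N := by exact_mod_cast hpN'
    have hpi := Nat.prime_iff_prime_int.1 hp
    have hsp := hQ p hp hpN
    have y1 := not_dvd_im hd htp hz hp (h1 ▸ hpN)
    have y2 := not_dvd_im hd htp' hz' hp (h1' ▸ hpN)
    have hr := hρ p hp hpN
    have hfin : ∀ u : ℤ, (p : ℤ) ∣ z.im * z'.im * u → (p : ℤ) ∣ u := by
      intro u hu
      rcases hpi.dvd_or_dvd hu with h | h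
      · rcases hpi.dvd_or_dvd h with h | h
        · exact absurd h y1
        · exact absurd h y2
      · exact h
    have hend : (p : ℤ) ∣ t - 2 * ρ p → False := by
      intro h
      apply hsp.2.2.1
      have e : t ^ 2 - 4 * c = (t - 2 * ρ p) * (t - 2 * ρ p) - 4 * (ρ p ^ 2 - t * ρ p + c) := by
        ring
      rw [e]
      exact dvd_sub (h.mul_right _) (hr.mul_left _)
    by_cases hl : lat p (ρ p) z
    · have hl' := (hT p hp hpN).1 hl
      unfold lat at hl hl'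
      apply hend
      apply hfin
      have e : z.im * z'.im * (t - 2 * ρ p) = S - (z.re + ρ p * z.im) * z'.im -
          (z'.re + ρ p * z'.im) * z.im := by rw [hS]; ring
      rw [e]
      exact dvd_sub (dvd_sub hpS (hl.mul_right _)) (hl'.mul_right _)
    · have hl' : ¬ lat p (ρ p) z' := fun h => hl ((hT p hp hpN).2 h)
      unfold lat at hl hl'
      have other : ∀ w : Qd t c, (p : ℤ) ∣ w.re ^ 2 + t * w.re * w.im + c * w.im ^ 2 →
          ¬ (p : ℤ) ∣ w.re + ρ p * w.im → (p : ℤ) ∣ w.re + (t - ρ p) * w.im := by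
        intro w hw hnw
        have e : (w.re + ρ p * w.im) * (w.re + (t - ρ p) * w.im) =
            (w.re ^ 2 + t * w.re * w.im + c * w.im ^ 2) -
              w.im ^ 2 * (ρ p ^ 2 - t * ρ p + c) := by ring
        have h2 : (p : ℤ) ∣ (w.re + ρ p * w.im) * (w.re + (t - ρ p) * w.im) := by
          rw [e]
          exact dvd_sub hw (hr.mul_left _)
        rcases hpi.dvd_or_dvd h2 with h | h
        · exact absurd h hnw
        · exact h
      have o1 := other z (by rw [← n1]; exact hpN') hl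
      have o2 := other z' (by rw [← n2]; exact hpN') hl'
      apply hend
      apply hfin
      have e : z.im * z'.im * (t - 2 * ρ p) = -(S - (z.re + (t - ρ p) * z.im) * z'.im -
          (z'.re + (t - ρ p) * z'.im) * z.im) := by rw [hS]; ring
      rw [e, dvd_neg]
      exact dvd_sub (dvd_sub hpS (o1.mul_right _)) (o2.mul_right _)
  exact hcop.dvd_of_dvd_mul_right hmul

/-- at most `2^ω(N)` primitive elements of norm `N` in the cone -/
lemma card_norm_le (hd : 4 * c < t ^ 2) (hns : ¬ IsSquare (t ^ 2 - 4 * c)) {N : ℕ} (hN : 0 < N) (hQ : QP (Sp t c) N)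
    (F : Finset (Qd t c)) (hF : ∀ z ∈ F, prim z ∧ nm z = N ∧ cn z) :
    F.card ≤ 2 ^ N.primeFactors.card := by
  classical
  have hex : ∀ p : ℕ, ∃ r : ℤ, p.Prime → p ∣ N → (p : ℤ) ∣ r ^ 2 - t * r + c := by
    intro p
    by_cases h : p.Prime ∧ p ∣ N
    · obtain ⟨r, hr⟩ := (hQ p h.1 h.2).2.2.2
      exact ⟨r, fun _ _ => hr⟩
    · exact ⟨0, fun h1 h2 => absurd ⟨h1, h2⟩ h⟩
  choose ρ hρ using hex
  let T : Qd t c → Finset ℕ := fun z => N.primeFactors.filter (fun p => lat p (ρ p) z)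
  have hmaps : ∀ z ∈ F, T z ∈ N.primeFactors.powerset := by
    intro z _
    rw [mem_powerset]
    exact filter_subset _ _
  rw [Finset.card_eq_sum_card_fiberwise hmaps]
  have h6 : ∀ A ∈ N.primeFactors.powerset, (F.filter (fun z => T z = A)).card ≤ 1 := by
    intro A _
    rw [Finset.card_le_one]
    intro z hz z' hz'
    rw [mem_filter] at hz hz'
    obtain ⟨p1, n1, c1⟩ := hF z hz.1
    obtain ⟨p2, n2, c2⟩ := hF z' hz'.1
    refine cn_unique hd hns hN c1 c2 p1 p2 n1 n2 ?_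
    refine dvd_dt hd hN hQ ρ hρ (cn_tp c1) (cn_tp c2) p1 p2 n1 n2 ?_
    intro p hp hpN
    have hpm : p ∈ N.primeFactors := Nat.mem_primeFactors.2 ⟨hp, hpN, hN.ne'⟩
    have e1 : T z = T z' := by rw [hz.2, hz'.2]
    have e2 : p ∈ T z ↔ p ∈ T z' := by rw [e1]
    simp only [T, mem_filter, hpm, true_and] at e2
    exact e2
  refine (Finset.sum_le_sum h6).trans (le_of_eq ?_)
  rw [sum_const, card_powerset, smul_eq_mul, mul_one]

lemma one_le_QQ (hd : 4 * c < t ^ 2) : 1 ≤ QQ t c := by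
  unfold QQ
  have : 0 < (t ^ 2 - 4 * c).natAbs := Int.natAbs_pos.2 (by linarith)
  omega

/-- the normalisation: both conjugates of `ω` are positive and close to each other -/
def Nrm (t c : ℤ) : Prop := 0 < t ∧ 4 * (t ^ 2 - 4 * c) ≤ t ^ 2

lemma Nrm.c_pos (h : Nrm t c) : 0 < c := by
  obtain ⟨h1, h2⟩ := h
  nlinarith

lemma elt_cn (hd : 4 * c < t ^ 2) (hn : Nrm t c) {Q X : ℕ} {p : ℕ × ℕ} (hp : p ∈ ZX Q X) :
    cn (elt Q p : Qd t c) := by
  rw [mem_ZX] at hp
  have hx : (0 : ℝ) < p.1 := by exact_mod_cast hp.1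
  have hy : (0 : ℝ) ≤ p.2 := Nat.cast_nonneg _
  have hQ : (0 : ℝ) ≤ Q := Nat.cast_nonneg _
  have hdisc := disc_pos hd
  have ht : (0 : ℝ) < t := by exact_mod_cast hn.1
  have hle : (4 : ℝ) * ((t : ℝ) ^ 2 - 4 * c) ≤ (t : ℝ) ^ 2 := by exact_mod_cast hn.2
  have hs : Real.sqrt ((t : ℝ) ^ 2 - 4 * c) ≤ t / 2 := by
    rw [Real.sqrt_le_left (by linarith)]
    nlinarith
  have hs0 : 0 ≤ Real.sqrt ((t : ℝ) ^ 2 - 4 * c) := Real.sqrt_nonneg _
  set q := Real.sqrt ((t : ℝ) ^ 2 - 4 * c)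
  have hQy : 0 ≤ (Q : ℝ) * p.2 := mul_nonneg hQ hy
  have e1 : s1 (elt Q p : Qd t c) = p.1 + (Q * p.2) * ((t + q) / 2) := by
    unfold s1 elt
    simp only
    push_cast
    ring
  have e2 : s2 (elt Q p : Qd t c) = p.1 + (Q * p.2) * ((t - q) / 2) := by
    unfold s2 elt
    simp only
    push_cast
    ring
  unfold cn
  rw [e1, e2]
  refine ⟨?_, ?_, ?_⟩
  · have : 0 ≤ (Q : ℝ) * p.2 * ((t - q) / 2) := mul_nonneg hQy (by linarith)
    linarith
  · have : (Q : ℝ) * p.2 * ((t - q) / 2) ≤ (Q : ℝ) * p.2 * ((t + q) / 2) :=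
      mul_le_mul_of_nonneg_left (by linarith) hQy
    linarith
  · have : (Q : ℝ) * p.2 * ((t + q) / 2) ≤ (Q : ℝ) * p.2 * (3 * ((t - q) / 2)) :=
      mul_le_mul_of_nonneg_left (by linarith) hQy
    linarith

lemma elt_nm_le (hd : 4 * c < t ^ 2) (hn : Nrm t c) {Q X : ℕ} {p : ℕ × ℕ} (hp : p ∈ ZX Q X) :
    nm (elt Q p : Qd t c) ≤ (1 + t.natAbs * Q + c.natAbs * Q ^ 2) * p.1 ^ 2 := by
  have h1 := nm_tp_int hd (cn_tp (elt_cn hd hn hp))
  rw [mem_ZX] at hp
  have h2 : (nm (elt Q p : Qd t c) : ℤ) ≤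
      (((1 + t.natAbs * Q + c.natAbs * Q ^ 2) * p.1 ^ 2 : ℕ) : ℤ) := by
    rw [h1]
    push_cast
    simp only [elt]
    have hc : 0 < c := hn.c_pos
    have hx : (0 : ℤ) ≤ p.1 := by positivity
    have hy : (0 : ℤ) ≤ p.2 := by positivity
    have hyx : (p.2 : ℤ) ≤ p.1 := by exact_mod_cast hp.2.2.2.1
    have hQ0 : (0 : ℤ) ≤ Q := by positivity
    have ht : t ≤ |t| := le_abs_self t
    have ht0 : 0 ≤ |t| := abs_nonneg t
    rw [abs_of_pos hc]
    have a1 : t * (p.1 : ℤ) * ((Q : ℤ) * p.2) ≤ |t| * Q * (p.1 : ℤ) ^ 2 := by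
      calc t * (p.1 : ℤ) * ((Q : ℤ) * p.2) ≤ |t| * (p.1 : ℤ) * ((Q : ℤ) * p.2) := by
            apply mul_le_mul_of_nonneg_right _ (by positivity)
            exact mul_le_mul_of_nonneg_right ht hx
        _ = (|t| * Q * p.1) * p.2 := by ring
        _ ≤ (|t| * Q * p.1) * p.1 := mul_le_mul_of_nonneg_left hyx (by positivity)
        _ = _ := by ring
    have a2 : c * ((Q : ℤ) * p.2) ^ 2 ≤ c * (Q : ℤ) ^ 2 * (p.1 : ℤ) ^ 2 := by
      have : (p.2 : ℤ) ^ 2 ≤ (p.1 : ℤ) ^ 2 := by nlinarith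
      calc c * ((Q : ℤ) * p.2) ^ 2 = (c * (Q : ℤ) ^ 2) * (p.2 : ℤ) ^ 2 := by ring
        _ ≤ (c * (Q : ℤ) ^ 2) * (p.1 : ℤ) ^ 2 := mul_le_mul_of_nonneg_left this (by positivity)
    linarith
  exact_mod_cast h2

lemma elt_QP (hd : 4 * c < t ^ 2) (hn : Nrm t c) {X : ℕ} {p : ℕ × ℕ} (hp : p ∈ ZX (QQ t c) X) :
    QP (Sp t c) (nm (elt (QQ t c) p : Qd t c)) := by
  intro q hq hqn
  have hpr := elt_prim (t := t) (c := c) hp
  have hp' := mem_ZX.1 hp
  have hnQ : ¬ q ∣ QQ t c := by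
    intro h
    have h1 : (q : ℤ) ∣ (nm (elt (QQ t c) p : Qd t c) : ℤ) := by exact_mod_cast hqn
    rw [nm_tp_int hd (cn_tp (elt_cn hd hn hp))] at h1
    simp only [elt] at h1
    have hQz : (q : ℤ) ∣ (QQ t c : ℤ) := by exact_mod_cast h
    have h2 : (q : ℤ) ∣ (p.1 : ℤ) ^ 2 := by
      have e : (p.1 : ℤ) ^ 2 = ((p.1 : ℤ) ^ 2 + t * p.1 * ((QQ t c : ℤ) * p.2) +
          c * ((QQ t c : ℤ) * p.2) ^ 2) - (QQ t c : ℤ) * (t * p.1 * p.2 +
          c * (QQ t c : ℤ) * (p.2 : ℤ) ^ 2) := by ring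
      rw [e]
      exact dvd_sub h1 (hQz.mul_right _)
    have h3 : q ∣ p.1 := by
      have := (Nat.prime_iff_prime_int.1 hq).dvd_of_dvd_pow h2
      exact_mod_cast this
    have h4 : q ∣ Nat.gcd p.1 (QQ t c) := Nat.dvd_gcd h3 h
    rw [hp'.2.2.2.2.1] at h4
    exact hq.one_lt.ne' (Nat.dvd_one.1 h4)
  apply Sp_of hd (cn_tp (elt_cn hd hn hp)) hpr hq hqn
  · by_contra h5
    have : q ∣ 6 := by
      have h2 := hq.two_le
      interval_cases q
      · norm_num
      · norm_num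
      · exact absurd hq (by norm_num)
    exact hnQ (this.mul_right _)
  · intro h
    apply hnQ
    have : q ∣ (t ^ 2 - 4 * c).natAbs := Int.natCast_dvd.1 h
    exact this.mul_left _

/-- the lower bound in terms of `X` -/
lemma tG_ge (hd : 4 * c < t ^ 2) (hns : ¬ IsSquare (t ^ 2 - 4 * c)) (hn : Nrm t c) (X D : ℕ) (hXD : CC t c * X ^ 2 ≤ D) :
    1 / (CC t c : ℝ) * ∑ p ∈ ZX (QQ t c) X, 1 / (p.1 : ℝ) ^ 2 ≤ 6 * tG (Sp t c) D := by
  classical
  set Q := QQ t c with hQdef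
  have hQ1 : 1 ≤ Q := one_le_QQ hd
  have hC : (1 : ℕ) ≤ CC t c := by unfold CC; omega
  have h1 : 1 / (CC t c : ℝ) * ∑ p ∈ ZX Q X, 1 / (p.1 : ℝ) ^ 2 ≤
      ∑ p ∈ ZX Q X, 1 / (nm (elt Q p : Qd t c) : ℝ) := by
    rw [Finset.mul_sum]
    apply Finset.sum_le_sum
    intro p hp
    have hp' := mem_ZX.1 hp
    have h2 := elt_nm_le hd hn hp
    have h3 : 0 < nm (elt Q p : Qd t c) := nm_pos hd (cn_tp (elt_cn hd hn hp))
    have h4 : (nm (elt Q p : Qd t c) : ℝ) ≤ (CC t c : ℝ) * (p.1 : ℝ) ^ 2 := by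
      have : nm (elt Q p : Qd t c) ≤ CC t c * p.1 ^ 2 := h2
      exact_mod_cast this
    have h5 : (0 : ℝ) < nm (elt Q p : Qd t c) := by exact_mod_cast h3
    rw [one_div_mul_one_div]
    exact one_div_le_one_div_of_le h5 h4
  refine h1.trans ?_
  have hmaps : ∀ p ∈ ZX Q X, nm (elt Q p : Qd t c) ∈ (Icc 1 D).filter (fun n => QP (Sp t c) n) := by
    intro p hp
    have hp' := mem_ZX.1 hp
    have h3 : 0 < nm (elt Q p : Qd t c) := nm_pos hd (cn_tp (elt_cn hd hn hp))
    have h2 : nm (elt Q p : Qd t c) ≤ CC t c * p.1 ^ 2 := elt_nm_le hd hn hp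
    rw [mem_filter, mem_Icc]
    refine ⟨⟨h3, ?_⟩, elt_QP hd hn hp⟩
    calc nm (elt Q p : Qd t c) ≤ CC t c * p.1 ^ 2 := h2
      _ ≤ CC t c * X ^ 2 := Nat.mul_le_mul_left _ (Nat.pow_le_pow_left hp'.2.1 2)
      _ ≤ D := hXD
  rw [← Finset.sum_fiberwise_of_maps_to hmaps]
  unfold tG
  rw [Finset.mul_sum]
  apply Finset.sum_le_sum
  intro N hN
  rw [mem_filter, mem_Icc] at hN
  have h2 : ∑ p ∈ (ZX Q X).filter (fun p => nm (elt Q p : Qd t c) = N),
      1 / (nm (elt Q p : Qd t c) : ℝ) =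
      (((ZX Q X).filter (fun p => nm (elt Q p : Qd t c) = N)).card : ℝ) * (N : ℝ)⁻¹ := by
    rw [← nsmul_eq_mul, ← sum_const]
    apply Finset.sum_congr rfl
    intro p hp
    rw [mem_filter] at hp
    rw [hp.2, one_div]
  rw [h2]
  have h3 : ((ZX Q X).filter (fun p => nm (elt Q p : Qd t c) = N)).card ≤
      6 * 2 ^ N.primeFactors.card := by
    rw [← Finset.card_image_of_injective _ (elt_inj (t := t) (c := c) hQ1)]
    refine (card_norm_le hd hns (by omega) hN.2 _ ?_).trans (by omega)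
    intro z hz
    rw [mem_image] at hz
    obtain ⟨p, hp, rfl⟩ := hz
    rw [mem_filter] at hp
    exact ⟨elt_prim hp.1, hp.2, elt_cn hd hn hp.1⟩
  have h4 : (((ZX Q X).filter (fun p => nm (elt Q p : Qd t c) = N)).card : ℝ) ≤
      6 * 2 ^ N.primeFactors.card := by exact_mod_cast h3
  calc _ ≤ (6 * 2 ^ N.primeFactors.card) * (N : ℝ)⁻¹ :=
        mul_le_mul_of_nonneg_right h4 (by positivity)
    _ = _ := by ring

theorem hG_ge (hd : 4 * c < t ^ 2) (hns : ¬ IsSquare (t ^ 2 - 4 * c)) (hn : Nrm t c) : ∃ c₀ : ℝ, 0 < c₀ ∧ ∀ D : ℕ, 2 ≤ D →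
    c₀ * Real.log D ≤ hG (Sp t c) D := by
  set Q := QQ t c with hQdef
  have hQ1 : 1 ≤ Q := one_le_QQ hd
  have hC : (1 : ℕ) ≤ CC t c := by unfold CC; omega
  have hQR : (1 : ℝ) ≤ Q := by exact_mod_cast hQ1
  have hCR : (1 : ℝ) ≤ CC t c := by exact_mod_cast hC
  set a : ℝ := 1 / (CC t c : ℝ) * (1 / 2 * (1 / ((Q : ℝ) + 1))) / 6 with ha
  have ha0 : 0 < a := by positivity
  set b : ℝ := Real.log (CC t c) / 2 + Real.log 2 + Real.log Q with hb
  have hb0 : 0 ≤ b := by
    have h1 := Real.log_nonneg hCR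
    have h2 := Real.log_nonneg hQR
    have h3 := Real.log_nonneg (show (1 : ℝ) ≤ 2 by norm_num)
    rw [hb]
    linarith
  have main : ∀ D : ℕ, CC t c ≤ D → a * (Real.log D / 2 - b) ≤ hG (Sp t c) D := by
    intro D hDC
    set X := Nat.sqrt (D / CC t c) with hX
    have hX1 : 1 ≤ X := by
      rw [hX, Nat.le_sqrt]
      rw [one_mul]
      exact Nat.div_pos hDC hC
    have h1 : X * X ≤ D / CC t c := Nat.sqrt_le _
    have h2 : CC t c * X ^ 2 ≤ D := by
      calc CC t c * X ^ 2 = CC t c * (X * X) := by ring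
        _ ≤ CC t c * (D / CC t c) := Nat.mul_le_mul_left _ h1
        _ ≤ D := Nat.mul_div_le _ _
    have h3 : D < CC t c * (X + 1) ^ 2 := by
      have h4 : D / CC t c < (X + 1) * (X + 1) := Nat.lt_succ_sqrt _
      have h5 := (Nat.div_lt_iff_lt_mul (show 0 < CC t c from hC)).1 h4
      calc D < (X + 1) * (X + 1) * CC t c := h5
        _ = _ := by ring
    have h4 := tG_ge hd hns hn X D h2
    have h5 := sum_AX_le Q X
    have h6 := sum_AX_ge Q X hQ1 hX1
    have h7 := tG_le (P := Sp t c) D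
    have hXR : (1 : ℝ) ≤ X := by exact_mod_cast hX1
    have hDR : (0 : ℝ) < D := by
      have : 0 < D := by omega
      exact_mod_cast this
    have h8 : Real.log D ≤ Real.log (CC t c) + 2 * (Real.log 2 + Real.log X) := by
      have e1 : (D : ℝ) ≤ (CC t c : ℝ) * (2 * X) ^ 2 := by
        have e2 : (D : ℝ) ≤ (CC t c : ℝ) * (X + 1) ^ 2 := by exact_mod_cast h3.le
        refine e2.trans ?_
        apply mul_le_mul_of_nonneg_left _ (by linarith)
        apply pow_le_pow_left₀ (by linarith)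
        linarith
      have e3 := Real.log_le_log hDR e1
      rw [Real.log_mul (by linarith) (by positivity), Real.log_pow,
        Real.log_mul (by norm_num) (by linarith)] at e3
      push_cast at e3
      exact e3
    have h9 : Real.log ((X : ℝ) / Q) = Real.log X - Real.log Q :=
      Real.log_div (by linarith) (by linarith)
    have h10 : Real.log D / 2 - b ≤ Real.log ((X : ℝ) / Q) := by
      rw [h9, hb]; linarith
    calc a * (Real.log D / 2 - b) ≤ a * Real.log ((X : ℝ) / Q) :=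
          mul_le_mul_of_nonneg_left h10 ha0.le
      _ = 1 / (CC t c : ℝ) * (1 / 2 * (1 / ((Q : ℝ) + 1) * Real.log ((X : ℝ) / Q))) / 6 := by
          rw [ha]; ring
      _ ≤ 1 / (CC t c : ℝ) * (∑ p ∈ ZX Q X, 1 / (p.1 : ℝ) ^ 2) / 6 := by
          apply div_le_div_of_nonneg_right _ (by norm_num)
          apply mul_le_mul_of_nonneg_left _ (by positivity)
          linarith
      _ ≤ tG (Sp t c) D := by linarith
      _ ≤ _ := h7
  -- combine
  set B : ℝ := max (4 * b) (Real.log (CC t c)) + 1 with hB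
  have hB1 : 1 ≤ B := by
    have : 0 ≤ max (4 * b) (Real.log (CC t c)) := le_max_of_le_left (by linarith)
    linarith
  refine ⟨min (a / 4) (1 / B), by positivity, fun D hD2 => ?_⟩
  have hlog : 0 ≤ Real.log D := Real.log_nonneg (by exact_mod_cast (by omega : 1 ≤ D))
  rcases le_or_gt (Real.log D) B with h | h
  · have h1 := one_le_hG (P := Sp t c) (show 1 ≤ D by omega)
    refine le_trans ?_ h1
    calc min (a / 4) (1 / B) * Real.log D ≤ 1 / B * B :=
          mul_le_mul (min_le_right _ _) h hlog (by positivity)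
      _ = 1 := by field_simp
  · have h1 : 4 * b ≤ Real.log D := by
      have := le_max_left (4 * b) (Real.log (CC t c))
      linarith
    have h2 : Real.log (CC t c) ≤ Real.log D := by
      have := le_max_right (4 * b) (Real.log (CC t c))
      linarith
    have hDR : (0 : ℝ) < D := by
      have : 0 < D := by omega
      exact_mod_cast this
    have h3 : CC t c ≤ D := by
      have := (Real.log_le_log_iff (by linarith) hDR).1 h2
      exact_mod_cast this
    refine le_trans ?_ (main D h3)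
    calc min (a / 4) (1 / B) * Real.log D ≤ a / 4 * Real.log D :=
          mul_le_mul_of_nonneg_right (min_le_left _ _) hlog
      _ ≤ a * (Real.log D / 2 - b) := by
          have : a * (4 * b) ≤ a * Real.log D := mul_le_mul_of_nonneg_left h1 ha0.le
          linarith

theorem selb_nrm (hd : 4 * c < t ^ 2) (hns : ¬ IsSquare (t ^ 2 - 4 * c)) (hn : Nrm t c) :
    S_SELB t c := by
  obtain ⟨c₀, hc₀, hG'⟩ := hG_ge hd hns hn
  refine ⟨1 / c₀, by positivity, fun D hD2 => ?_⟩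
  have hD1 : 1 ≤ D := by omega
  have hG1 := one_le_hG (P := Sp t c) hD1
  refine ⟨hl (Sp t c) D, hl_one hD1, hl_le hD1, ?_, ?_, ?_⟩
  · intro d hd
    exact hl_supp hd
  · rw [h_form D hD1]
    have : 0 < hG (Sp t c) D := by linarith
    exact (inv_pos.2 this).le
  · rw [h_form D hD1]
    have hlog : 0 < Real.log D := Real.log_pos (by exact_mod_cast (by omega : 1 < D))
    rw [div_div, one_div]
    exact inv_anti₀ (by positivity) (hG' D hD2)

lemma Sp_shift (m : ℤ) : Sp (t + 2 * m) (m ^ 2 + t * m + c) = Sp t c := by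
  funext p
  apply propext
  have e : (t + 2 * m) ^ 2 - 4 * (m ^ 2 + t * m + c) = t ^ 2 - 4 * c := by ring
  unfold Pool.Agent.W78.GA.Sp
  rw [e]
  constructor
  · rintro ⟨h1, h2, h3, r, hr⟩
    refine ⟨h1, h2, h3, r - m, ?_⟩
    have : (r - m) ^ 2 - t * (r - m) + c = r ^ 2 - (t + 2 * m) * r + (m ^ 2 + t * m + c) := by ring
    rw [this]; exact hr
  · rintro ⟨h1, h2, h3, r, hr⟩
    refine ⟨h1, h2, h3, r + m, ?_⟩
    have : (r + m) ^ 2 - (t + 2 * m) * (r + m) + (m ^ 2 + t * m + c) = r ^ 2 - t * r + c := by ring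
    rw [this]; exact hr

/-- task GR-13 -/
theorem selb (hd : 4 * c < t ^ 2) (hns : ¬ IsSquare (t ^ 2 - 4 * c)) : S_SELB t c := by
  obtain ⟨m, hm⟩ : ∃ m : ℤ, Nrm (t + 2 * m) (m ^ 2 + t * m + c) := by
    refine ⟨|t| + (t ^ 2 - 4 * c) + 1, ?_, ?_⟩
    · have h1 := neg_abs_le t
      have h2 := abs_nonneg t
      linarith
    · have e : ∀ m : ℤ, (t + 2 * m) ^ 2 - 4 * (m ^ 2 + t * m + c) = t ^ 2 - 4 * c := fun m => by ring
      rw [e]
      have h1 := neg_abs_le t
      have h2 := abs_nonneg t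
      set D := t ^ 2 - 4 * c with hD
      have hD0 : 0 < D := by linarith
      have h3 : 2 * D + 2 ≤ t + 2 * (|t| + D + 1) := by linarith
      nlinarith
  have e : (t + 2 * m) ^ 2 - 4 * (m ^ 2 + t * m + c) = t ^ 2 - 4 * c := by ring
  have h := selb_nrm (t := t + 2 * m) (c := m ^ 2 + t * m + c) (by linarith) (by rwa [e]) hm
  unfold Pool.Agent.W78.GA.S_SELB at h ⊢
  rw [Sp_shift] at h
  exact h

end Pool.Agent.W586.GR
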